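import Pool.Agent.H85.TU.Targets

set_option autoImplicit false

namespace Pool.Agent.H59.TU

open Set Pool.Agent.H85.TU

theorem pf_BOR : T_BOR := by
  intro X _ _ A hA
  rcases A.eq_empty_or_nonempty with h | hne
  · exact Or.inl h
  right
  have h1 : StandardBorelSpace A := hA.standardBorel
  have h2 : Nonempty A := hne.to_subtype
  let _ := upgradeStandardBorel A
  obtain ⟨φ, hφ, hs⟩ := PolishSpace.exists_nat_nat_continuous_surjective A
  refine ⟨fun u => (φ u : X), measurable_subtype_coe.comp hφ.measurable, ?_⟩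
  ext y
  constructor
  · rintro ⟨u, rfl⟩
    exact (φ u).2
  · intro hy
    obtain ⟨u, hu⟩ := hs ⟨y, hy⟩
    exact ⟨u, congrArg Subtype.val hu⟩

end Pool.Agent.H59.TU
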