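import Pool.Agent.H85.TU.Targets

set_option autoImplicit false

namespace Pool.Agent.H59.TU

open Set Pool.Agent.H85.TU

variable {ι : Type} {ar : ι → ℕ} {D : ι → Type} {x : Str ar D ℕ}

theorem aut_one : Aut x (1 : Equiv.Perm ℕ) := fun _ _ => rfl

theorem aut_mul {g h : Equiv.Perm ℕ} (hg : Aut x g) (hh : Aut x h) : Aut x (g * h) := by
  intro i v
  have : (⇑(g * h) ∘ v) = g ∘ (h ∘ v) := rfl
  rw [this, hg, hh]

theorem aut_inv {g : Equiv.Perm ℕ} (hg : Aut x g) : Aut x g⁻¹ := by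
  intro i v
  rw [← hg i (⇑g⁻¹ ∘ v)]
  congr 1
  funext k
  simp

theorem tw_refl (a : ℕ) : Tw x a a := by
  unfold Tw
  rw [Equiv.swap_self]
  exact aut_one

theorem tw_symm {a b : ℕ} (h : Tw x a b) : Tw x b a := by
  unfold Tw at *
  rwa [Equiv.swap_comm]

theorem tw_trans {a b c : ℕ} (h : Tw x a b) (h' : Tw x b c) : Tw x a c := by
  by_cases hca : c = a
  · subst hca
    exact tw_refl _
  by_cases hcb : c = b
  · subst hcb
    exact h
  have h1 : Equiv.swap a c = Equiv.swap a b * Equiv.swap b c * (Equiv.swap a b)⁻¹ := by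
    rw [← Equiv.swap_apply_apply, Equiv.swap_apply_right, Equiv.swap_apply_of_ne_of_ne hca hcb]
  unfold Tw at *
  rw [h1]
  exact aut_mul (aut_mul h h') (aut_inv h)

theorem tw_swap {p q : ℕ} (h : Tw x p q) (m : ℕ) : Tw x m (Equiv.swap p q m) := by
  by_cases h1 : m = p
  · rw [h1, Equiv.swap_apply_left]
    exact h
  by_cases h2 : m = q
  · rw [h2, Equiv.swap_apply_right]
    exact tw_symm h
  rw [Equiv.swap_apply_of_ne_of_ne h1 h2]
  exact tw_refl _

theorem exists_match {s s' : ℕ → ℕ} (hs : Lb x s) (hs' : Lb x s') (a : ℕ) :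
    ∃ b, Tw x a b ∧ s' b = s a := by
  by_contra hcon
  push Not at hcon
  -- all values of `s'` on the class are `< s a`
  have hlt : ∀ b, Tw x a b → s' b < s a := by
    intro b hb
    rcases lt_trichotomy (s' b) (s a) with h | h | h
    · exact h
    · exact absurd h (hcon b hb)
    · obtain ⟨c, hc, hc'⟩ := hs'.2 b (s a) h
      exact absurd hc' (hcon c (tw_trans hb hc))
  have hc : ∀ j : Fin (s a + 1), ∃ c, Tw x a c ∧ s c = j.1 := by
    intro j
    rcases Nat.lt_or_ge j.1 (s a) with h | h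
    · exact hs.2 a j.1 h
    · exact ⟨a, tw_refl a, by have := j.2; omega⟩
  choose c hc1 hc2 using hc
  have hinj : Function.Injective (fun j : Fin (s a + 1) => (⟨s' (c j), hlt _ (hc1 j)⟩ : Fin (s a))) := by
    intro j k hjk
    have h1 : s' (c j) = s' (c k) := congrArg Fin.val hjk
    have h2 : c j = c k := hs'.1 _ _ (tw_trans (tw_symm (hc1 j)) (hc1 k)) h1
    apply Fin.ext
    rw [← hc2 j, ← hc2 k, h2]
  have h3 := Fintype.card_le_of_injective _ hinj
  simp at h3

theorem exists_tau {h : Equiv.Perm ℕ} (hh : ∀ a, Tw x a (h a)) (F : Finset ℕ) :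
    ∃ τ : Equiv.Perm ℕ, Aut x τ ∧ (∀ n, Tw x n (τ n)) ∧ ∀ a ∈ F, τ a = h a := by
  induction F using Finset.induction_on with
  | empty => exact ⟨1, aut_one, fun n => tw_refl n, by simp⟩
  | insert a F ha ih =>
    obtain ⟨τ, h1, h2, h3⟩ := ih
    have htw : Tw x (τ a) (h a) := tw_trans (tw_symm (h2 a)) (hh a)
    refine ⟨Equiv.swap (τ a) (h a) * τ, aut_mul htw h1, fun n => ?_, fun b hb => ?_⟩
    · rw [Equiv.Perm.mul_apply]
      exact tw_trans (h2 n) (tw_swap htw _)
    · rw [Equiv.Perm.mul_apply]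
      rcases Finset.mem_insert.1 hb with hba | hb'
      · rw [hba, Equiv.swap_apply_left]
      · have hab : b ≠ a := by
          rintro rfl
          exact ha hb'
        rw [Equiv.swap_apply_of_ne_of_ne]
        · exact h3 b hb'
        · exact fun hh' => hab (τ.injective hh')
        · rw [h3 b hb']
          exact fun hh' => hab (h.injective hh')

theorem pf_UNI : T_UNI := by
  intro ι ar D x s s' hs hs'
  choose f hf1 hf2 using exists_match hs hs'
  choose g hg1 hg2 using exists_match hs' hs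
  let h : ℕ ≃ ℕ := ⟨f, g,
    fun a => (hs.1 _ _ (tw_symm (tw_trans (hf1 a) (hg1 (f a)))) (by rw [hg2, hf2])),
    fun a => (hs'.1 _ _ (tw_symm (tw_trans (hg1 a) (hf1 (g a)))) (by rw [hf2, hg2]))⟩
  refine ⟨h, ?_, fun a => hf2 a⟩
  intro i v
  obtain ⟨τ, h1, h2, h3⟩ := exists_tau (x := x) (h := h) hf1 (Finset.univ.image v)
  have h4 : (⇑h ∘ v) = τ ∘ v := by
    funext k
    exact (h3 (v k) (Finset.mem_image_of_mem v (Finset.mem_univ k))).symm
  rw [h4]
  exact h1 i v

end Pool.Agent.H59.TU
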